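import Pool.Agent.Q258.InterpPart

/-!
# Interpolation for partitions into indivisible dominating sets

For every finite graph `G` and every `k` with `ad(G) ≤ k ≤ d(G)` there is a partition of the vertex
set into exactly `k` indivisible dominating sets. The same holds for an arbitrary family of subsets
of a finite set which is closed under supersets and does not contain the empty set.
-/

namespace Pool.Agent.Results.MP_a3f2aa_co.Interpolation

/-- `D` is a dominating set of `G`: every vertex outside `D` has a neighbour in `D`. -/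
def IsDominating {V : Type*} (G : SimpleGraph V) (D : Finset V) : Prop :=
  ∀ v, v ∉ D → ∃ w ∈ D, G.Adj v w

/-- `D` is an indivisible dominating set: it is dominating, and it is not the union of two disjoint
nonempty dominating sets. -/
def IsIndivisible {V : Type*} [DecidableEq V] (G : SimpleGraph V) (D : Finset V) : Prop :=
  IsDominating G D ∧ ¬ ∃ A B : Finset V, A.Nonempty ∧ B.Nonempty ∧ Disjoint A B ∧ D = A ∪ B ∧
    IsDominating G A ∧ IsDominating G B

/-- `V(G)` has a partition into exactly `m` dominating sets. -/
def HasDominatingPartition {V : Type*} [Fintype V] [DecidableEq V] (G : SimpleGraph V) (m : ℕ) :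
    Prop :=
  ∃ Q : Finpartition (Finset.univ : Finset V), Q.parts.card = m ∧ ∀ D ∈ Q.parts, IsDominating G D

/-- `V(G)` has a partition into exactly `m` indivisible dominating sets. -/
def HasIndivisiblePartition {V : Type*} [Fintype V] [DecidableEq V] (G : SimpleGraph V) (m : ℕ) :
    Prop :=
  ∃ Q : Finpartition (Finset.univ : Finset V), Q.parts.card = m ∧ ∀ D ∈ Q.parts, IsIndivisible G D

/-- The domatic number `d(G)`: the largest order of a partition into dominating sets. -/
noncomputable def domaticNumber {V : Type*} [Fintype V] [DecidableEq V] (G : SimpleGraph V) : ℕ :=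
  sSup {m | HasDominatingPartition G m}

/-- The adomatic number `ad(G)`: the smallest order of a partition into indivisible dominating
sets. -/
noncomputable def adomaticNumber {V : Type*} [Fintype V] [DecidableEq V] (G : SimpleGraph V) : ℕ :=
  sInf {m | HasIndivisiblePartition G m}

section

variable {V : Type*} [Fintype V] [DecidableEq V] [Nonempty V] (G : SimpleGraph V)

theorem dom_mono : ∀ s t : Finset V, IsDominating G s → s ⊆ t → IsDominating G t := by
  intro s t hs hst v hv
  obtain ⟨w, hw, h⟩ := hs v (fun h => hv (hst h))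
  exact ⟨w, hst hw, h⟩

omit [Fintype V] [DecidableEq V] in
theorem not_dom_empty : ¬ IsDominating G (∅ : Finset V) := by
  intro h
  obtain ⟨v⟩ := ‹Nonempty V›
  obtain ⟨w, hw, _⟩ := h v (Finset.notMem_empty v)
  exact absurd hw (Finset.notMem_empty w)

theorem ind_iff (D : Finset V) : IsIndivisible G D ↔ Q258.Interp.Ind (IsDominating G) D := by
  constructor
  · rintro ⟨h1, h2⟩
    refine ⟨h1, ?_⟩
    rintro ⟨a, b, hab, hd, ha, hb⟩
    apply h2
    refine ⟨a, b, ?_, ?_, hd, hab.symm, ha, hb⟩
    · rw [Finset.nonempty_iff_ne_empty]; rintro rfl; exact not_dom_empty G ha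
    · rw [Finset.nonempty_iff_ne_empty]; rintro rfl; exact not_dom_empty G hb
  · rintro ⟨h1, h2⟩
    refine ⟨h1, ?_⟩
    rintro ⟨A, B, _, _, hd, hab, ha, hb⟩
    exact h2 ⟨A, B, hab.symm, hd, ha, hb⟩

theorem dom_univ : IsDominating G (Finset.univ : Finset V) := by
  intro v hv
  exact absurd (Finset.mem_univ v) hv

theorem bdd : BddAbove {m | HasDominatingPartition G m} := by
  refine ⟨(Finset.univ : Finset V).card, ?_⟩
  rintro m ⟨Q, hQ, _⟩
  rw [← hQ]
  exact Q.card_parts_le_card

theorem nonempty_dom : {m | HasDominatingPartition G m}.Nonempty := by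
  refine ⟨1, ?_⟩
  have hne : (Finset.univ : Finset V) ≠ ⊥ := by
    rw [Finset.bot_eq_empty]
    exact Finset.univ_nonempty.ne_empty
  refine ⟨Finpartition.indiscrete hne, ?_, ?_⟩
  · simp
  · intro D hD
    have : D = Finset.univ := by simpa using hD
    rw [this]
    exact dom_univ G

theorem dom_spec : HasDominatingPartition G (domaticNumber G) :=
  Nat.sSup_mem (nonempty_dom G) (bdd G)

theorem nonempty_ind : {m | HasIndivisiblePartition G m}.Nonempty := by
  classical
  -- a dominating partition of maximal order consists of indivisible sets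
  obtain ⟨Q, hQ, hD⟩ := dom_spec G
  have hN := Q258.Interp.Nn_of_finpartition (P := IsDominating G) Q hD
  -- take the largest `m` with `Nn univ m`
  have hcard : ∀ (m : ℕ) (R : Finset V), Q258.Interp.Nn (IsDominating G) R m → m ≤ R.card := by
    intro m
    induction m with
    | zero => intro R _; exact Nat.zero_le _
    | succ m ih =>
      rintro R ⟨S, hS, hP, hN⟩
      have h1 := ih _ hN
      have h2 : 0 < S.card := by
        rw [Finset.card_pos, Finset.nonempty_iff_ne_empty]
        rintro rfl
        exact not_dom_empty G hP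
      have h3 : (R \ S).card = R.card - S.card := Finset.card_sdiff_of_subset hS
      have h4 := Finset.card_le_card hS
      omega
  let p : ℕ → Prop := fun m => Q258.Interp.Nn (IsDominating G) (Finset.univ : Finset V) (m + 1)
  have hp0 : p 0 := ⟨Finset.univ, Finset.Subset.refl _, dom_univ G, trivial⟩
  have hex : ∃ m, ¬ p m := by
    refine ⟨(Finset.univ : Finset V).card, fun h => ?_⟩
    have := hcard _ _ h
    omega
  have h1 : ¬ p (Nat.find hex) := Nat.find_spec hex
  obtain ⟨j, hj⟩ : ∃ j, Nat.find hex = j + 1 := by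
    cases hn : Nat.find hex with
    | zero => exfalso; rw [hn] at h1; exact h1 hp0
    | succ j => exact ⟨j, rfl⟩
  have h2 : p j := by
    by_contra h
    have := Nat.find_min' hex h
    omega
  rw [hj] at h1
  have hJ := Q258.Interp.J_of_Nn (dom_mono G) j h2 h1
  obtain ⟨Q', hQ', hI⟩ := Q258.Interp.finpartition_of_J (not_dom_empty G) hJ
  exact ⟨j + 1, Q', hQ', fun D hD => (ind_iff G D).2 (hI D hD)⟩

theorem ind_spec : HasIndivisiblePartition G (adomaticNumber G) :=
  Nat.sInf_mem (nonempty_ind G)

end

/-- **Theorem.** (1) For every finite graph `G` with nonempty vertex set and every `k` with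
`ad(G) ≤ k ≤ d(G)`, the vertex set has a partition into exactly `k` indivisible dominating sets.
(2) More generally, let `P` be a family of subsets of a finite set `W`, closed under supersets and
not containing the empty set. If `W` has a partition into `a` indivisible members of `P` and a
partition into `d` members of `P`, then for every `k` with `a ≤ k ≤ d` it has a partition into
exactly `k` indivisible members of `P`. -/
theorem result :
    (∀ (V : Type) [Fintype V] [DecidableEq V] [Nonempty V] (G : SimpleGraph V) (k : ℕ),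
      adomaticNumber G ≤ k → k ≤ domaticNumber G → HasIndivisiblePartition G k) ∧
    (∀ (V : Type) [DecidableEq V] (P : Finset V → Prop),
      (∀ s t, P s → s ⊆ t → P t) → ¬ P ∅ →
      ∀ (W : Finset V) (Q₁ Q₂ : Finpartition W),
        (∀ D ∈ Q₁.parts, P D ∧ ¬ ∃ A B, A ∪ B = D ∧ Disjoint A B ∧ P A ∧ P B) →
        (∀ D ∈ Q₂.parts, P D) →
        ∀ k, Q₁.parts.card ≤ k → k ≤ Q₂.parts.card →
          ∃ Q : Finpartition W, Q.parts.card = k ∧
            ∀ D ∈ Q.parts, P D ∧ ¬ ∃ A B, A ∪ B = D ∧ Disjoint A B ∧ P A ∧ P B) := by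
  refine ⟨?_, ?_⟩
  · intro V _ _ _ G k h1 h2
    obtain ⟨Q₁, hQ₁, hD₁⟩ := ind_spec G
    obtain ⟨Q₂, hQ₂, hD₂⟩ := dom_spec G
    obtain ⟨Q, hQ, hD⟩ := Q258.Interp.interp_finpartition (P := IsDominating G) (dom_mono G)
      (not_dom_empty G) Q₁ Q₂ (fun D hD => (ind_iff G D).1 (hD₁ D hD)) hD₂ k
      (by rw [hQ₁]; exact h1) (by rw [hQ₂]; exact h2)
    exact ⟨Q, hQ, fun D hD' => (ind_iff G D).2 (hD D hD')⟩
  · intro V _ P hmono h0 W Q₁ Q₂ h₁ h₂ k hk1 hk2
    exact Q258.Interp.interp_finpartition hmono h0 Q₁ Q₂ h₁ h₂ k hk1 hk2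

end Pool.Agent.Results.MP_a3f2aa_co.Interpolation
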